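import Pool.Agent.H979.DE.Stm

set_option autoImplicit false

/-!
# Project DE (helper979): `S_TRAP`
-/

open MeasureTheory Finset Filter Pool.Agent.H41.Derrw Pool.Agent.H979.DE

namespace Pool.Agent.H229

namespace DETRAP

theorem cross_neg' {V : Type} [DecidableEq V] (w : ℕ → V) (n : ℕ) (x y : V) :
    cross w n x y = - cross w n y x := by
  unfold cross
  rw [← Finset.sum_neg_distrib]
  refine Finset.sum_congr rfl fun k _ => ?_
  ring

theorem cross_succ' {V : Type} [DecidableEq V] (w : ℕ → V) (n : ℕ) (x y : V) :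
    cross w (n + 1) x y = cross w n x y + ((if w n = x ∧ w (n + 1) = y then 1 else 0) -
      (if w n = y ∧ w (n + 1) = x then 1 else 0)) := by
  unfold cross
  rw [Finset.sum_range_succ]

/-- after a regular step the walk does not go back by a regular step -/
theorem no_back {V : Type} [DecidableEq V] (w : ℕ → V) (n : ℕ) (h1 : Reg w n) (h2 : Reg w (n + 1))
    (hne : w n ≠ w (n + 1)) : w (n + 2) ≠ w n := by
  intro h
  unfold Reg at h1 h2
  rw [show n + 1 + 1 = n + 2 from rfl, h, cross_succ', cross_neg'] at h2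
  have e1 : ¬ (w n = w (n + 1) ∧ w (n + 1) = w n) := fun h => hne h.1
  have e2 : (w n = w n ∧ w (n + 1) = w (n + 1)) := ⟨rfl, rfl⟩
  rw [if_neg e1, if_pos e2] at h2
  linarith

end DETRAP

theorem de_trap : S_TRAP := by
  classical
  intro V _ G _ w B hval hB hreg hmono
  obtain ⟨N0, hN0⟩ := hreg
  have hadj : ∀ k, G.Adj (w k) (w (k + 1)) := fun k => hval (k + 1) k (Nat.lt_succ_self k)
  -- after some time all the steps are frequent
  have hev : ∀ᶠ n in atTop, ∀ p ∈ B ×ˢ B, (¬ ∃ᶠ k in atTop, w k = p.1 ∧ w (k + 1) = p.2) →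
      ¬ (w n = p.1 ∧ w (n + 1) = p.2) := by
    rw [Filter.eventually_all_finset]
    intro p _
    by_cases h : ∃ᶠ k in atTop, w k = p.1 ∧ w (k + 1) = p.2
    · exact Eventually.of_forall fun n hn => absurd h hn
    · rw [Filter.not_frequently] at h
      filter_upwards [h] with n hn _ using hn
  obtain ⟨N1, hN1⟩ := Filter.eventually_atTop.mp hev
  set N := max N0 N1 with hN
  have hfreq : ∀ n, N ≤ n → ∃ᶠ k in atTop, w k = w n ∧ w (k + 1) = w (n + 1) := by
    intro n hn
    by_contra h
    exact hN1 n ((le_max_right _ _).trans hn) (w n, w (n + 1))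
      (Finset.mem_product.mpr ⟨hB n, hB (n + 1)⟩) h ⟨rfl, rfl⟩
  have hstep : ∀ n k, N ≤ n → N ≤ k → w n = w k → w (n + 1) = w (k + 1) := by
    intro n k hn hk h
    by_contra hne
    have h1 := hfreq n hn
    have h2 := hfreq k hk
    rw [← h] at h2
    exact hmono (w n) (w (n + 1)) (w (k + 1)) hne ⟨h1, h2⟩
  have hsteps : ∀ t n k, N ≤ n → N ≤ k → w n = w k → w (n + t) = w (k + t) := by
    intro t
    induction t with
    | zero => intro n k _ _ h; exact h
    | succ t ih =>
      intro n k hn hk h
      exact hstep (n + t) (k + t) (by omega) (by omega) (ih n k hn hk h)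
  -- the first return
  have hret : ∃ m, 0 < m ∧ w (N + m) = w N := by
    obtain ⟨k, hk, hk2⟩ := Filter.frequently_atTop.mp (hfreq N le_rfl) (N + 1)
    refine ⟨k - N, by omega, ?_⟩
    rw [show N + (k - N) = k by omega]
    exact hk2.1
  set m := Nat.find hret with hm
  obtain ⟨hm0, hmw⟩ := Nat.find_spec hret
  have hmin : ∀ j, 0 < j → j < m → w (N + j) ≠ w N := by
    intro j hj hjm h
    exact Nat.find_min hret hjm ⟨hj, h⟩
  have hper : ∀ j, w (N + m + j) = w (N + j) := fun j =>
    hsteps j (N + m) N (by omega) le_rfl hmw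
  have hmod : ∀ j, w (N + j % m) = w (N + j) := by
    intro j
    induction j using Nat.strong_induction_on with
    | _ j ih =>
      by_cases hj : j < m
      · rw [Nat.mod_eq_of_lt hj]
      · rw [not_lt] at hj
        have h1 := ih (j - m) (by omega)
        rw [← Nat.mod_eq_sub_mod hj] at h1
        rw [h1, ← hper (j - m)]
        congr 1
        omega
  have hdist : ∀ i j, i < j → j < m → w (N + i) ≠ w (N + j) := by
    intro i j hij hjm h
    have h1 := hsteps (m - j) (N + i) (N + j) (by omega) (by omega) h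
    rw [show N + j + (m - j) = N + m by omega, hmw, show N + i + (m - j) = N + (i + (m - j)) by omega]
      at h1
    exact hmin (i + (m - j)) (by omega) (by omega) h1
  have hNr : ∀ n, N ≤ n → Reg w n := fun n hn => hN0 n ((le_max_left _ _).trans hn)
  have hm1 : m ≠ 1 := by
    intro h
    rw [← hm, h] at hmw
    have := (hadj N).ne
    exact this hmw.symm
  have hm2 : m ≠ 2 := by
    intro h
    rw [← hm, h] at hmw
    exact DETRAP.no_back w N (hNr N le_rfl) (hNr (N + 1) (by omega)) (hadj N).ne hmw
  have hm3 : 3 ≤ m := by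
    have : 0 < m := hm0
    omega
  have : NeZero m := ⟨by omega⟩
  refine ⟨m, fun i => w (N + i.val), ⟨hm3, ?_, ?_⟩, N, 0, ?_⟩
  · intro i j h
    have hi := ZMod.val_lt i
    have hj := ZMod.val_lt j
    apply ZMod.val_injective m
    rcases lt_trichotomy i.val j.val with h1 | h1 | h1
    · exact absurd h (hdist _ _ h1 hj)
    · exact h1
    · exact absurd h.symm (hdist _ _ h1 hi)
  · intro i
    have h1 : (i + 1).val = (i.val + 1) % m := by
      rw [ZMod.val_add, ZMod.val_one_eq_one_mod, Nat.mod_eq_of_lt (show 1 < m by omega)]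
    simp only [h1]
    rw [hmod]
    exact hadj (N + i.val)
  · intro j
    simp only [zero_add, ZMod.val_natCast]
    rw [hmod]

end Pool.Agent.H229
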