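import Pool.Agent.H402.FF.Stm

/-!
# Normal form
-/

set_option autoImplicit false

open Finset

namespace Pool.Agent.H229.FF_NF

open Pool.Agent.H402.FF

universe u

theorem holds (h : S_zb.{u}) : S_nf.{u} := by
  intro F _ n N κ a b c a' v hn hκ hI h0jk hi0k hij0 hi00 h0j0 h00k h000 hSL
  obtain ⟨τ, μ, ν, ω, hμ, hν, hω, C1, C2, C3, C4, C5, C6, C7⟩ :=
    h F n N (fun _ => κ) (fun _ => hκ) hI hSL
  -- simplified conditions
  have E1 : ∀ j k, j < k → τ j ≠ 1 → τ k ≠ 2 → a = 0 := by
    intro j k hjk hj hk
    have := C1 j k hj hk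
    rw [h0jk, if_pos hjk, if_neg hjk.ne, if_neg hjk.ne] at this
    simpa using this
  have E2 : ∀ i, τ i = 1 → b + κ * ν i = 0 := by
    intro i hi
    have := C2 i i (by rw [hi]; decide) (by rw [hi]; decide)
    rw [hi0k, if_pos rfl, if_pos rfl] at this
    exact this
  have E3 : ∀ i, τ i = 2 → c + κ * ω i = 0 := by
    intro i hi
    have := C3 i i (by rw [hi]; decide) (by rw [hi]; decide)
    rw [hij0, if_pos rfl, if_pos rfl] at this
    exact this
  have E4 : ∀ i, τ i ≠ 0 → ω i * b + ν i * c = 0 := by
    intro i hi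
    have := C4 i hi
    rw [hi00] at this
    simp only [hi0k, hij0, mul_ite, mul_zero, Finset.sum_ite_eq, Finset.mem_univ, if_true] at this
    rw [zero_add] at this
    exact this
  have E5 : (∀ k, ω k = 0) → c = 0 → ∀ j, τ j ≠ 1 → a = 0 := by
    intro hω0 hc j hj
    have := C5 j hj
    rw [h0j0] at this
    simp only [hω0, zero_mul, Finset.sum_const_zero, hij0, hc, ite_self, mul_zero] at this
    simpa using this
  have E6 : ∀ k, τ k = 1 → ∑ j, ν j * (if j < k then a else 0) + ν k * a' = 0 := by
    intro k hk
    have h1 := C6 k (by rw [hk]; decide)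
    rw [h00k] at h1
    simp only [h0jk, hi0k, mul_ite, mul_zero, mul_add, Finset.sum_add_distrib, Finset.sum_ite_eq',
      Finset.mem_univ, if_true] at h1
    rw [hμ k (by rw [hk]; decide)] at h1
    simp only [zero_mul, add_zero, zero_add] at h1
    simp only [mul_ite, mul_zero]
    exact h1
  have dμω : ∀ i, μ i * ω i = 0 := by
    intro i
    by_cases hi : τ i = 0
    · rw [hω i (by rw [hi]; decide), mul_zero]
    · rw [hμ i hi, zero_mul]
  have dμν : ∀ i, μ i * ν i = 0 := by
    intro i
    by_cases hi : τ i = 0
    · rw [hν i (by rw [hi]; decide), mul_zero]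
    · rw [hμ i hi, zero_mul]
  have dνω : ∀ i, ν i * ω i = 0 := by
    intro i
    by_cases hi : τ i = 1
    · rw [hω i (by rw [hi]; decide), mul_zero]
    · rw [hν i hi, zero_mul]
  have E7 : v - a * ∑ j, ν j + a * ∑ j, ∑ k, (if j < k then ν j * ω k else 0) = 0 := by
    have h1 := C7
    rw [h000] at h1
    simp only [hi00, h0j0, h00k, h0jk, hi0k, hij0, mul_zero, Finset.sum_const_zero, add_zero,
      mul_ite, mul_add, Finset.sum_add_distrib, Finset.sum_ite_eq, Finset.mem_univ, if_true,
      dμω, dμν, dνω, zero_mul] at h1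
    refine Eq.trans ?_ h1
    have h2 : ∑ j, ν j * -a = - (a * ∑ j, ν j) := by
      rw [Finset.mul_sum, ← Finset.sum_neg_distrib]
      exact Finset.sum_congr rfl fun j _ => by ring
    have h3 : a * ∑ j, ∑ k, (if j < k then ν j * ω k else 0) =
        ∑ j, ∑ k, (if j < k then ν j * ω k * a else 0) := by
      rw [Finset.mul_sum]
      refine Finset.sum_congr rfl fun j _ => ?_
      rw [Finset.mul_sum]
      refine Finset.sum_congr rfl fun k _ => ?_
      split_ifs
      · ring
      · ring
    rw [h2, h3]
    ring
  by_cases ha : a = 0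
  · rw [ha] at E7
    simpa using E7
  have T : ∀ j k, j < k → τ j = 1 ∨ τ k = 2 := by
    intro j k hjk
    by_contra hcon
    push Not at hcon
    exact ha (E1 j k hjk hcon.1 hcon.2)
  set i0 : Fin n := ⟨0, by omega⟩ with hi0
  set i1 : Fin n := ⟨1, by omega⟩ with hi1
  have h01 : i0 < i1 := by
    rw [Fin.lt_def]
    simp [hi0, hi1]
  have hbc1 : ∀ i, τ i ≠ 0 → b * c = 0 := by
    intro i hi
    have h4 := E4 i hi
    have h12 : τ i = 1 ∨ τ i = 2 := by
      have : ∀ t : Fin 3, t ≠ 0 → t = 1 ∨ t = 2 := by decide
      exact this _ hi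
    rcases h12 with h12 | h12
    · rw [hω i (by rw [h12]; decide), zero_mul, zero_add] at h4
      have h2 := E2 i h12
      have h5 : b = - (κ * ν i) := by linear_combination h2
      rw [h5]
      linear_combination (-κ) * h4
    · rw [hν i (by rw [h12]; decide), zero_mul, add_zero] at h4
      have h2 := E3 i h12
      have h5 : c = - (κ * ω i) := by linear_combination h2
      rw [h5]
      linear_combination (-κ) * h4
  have hbc : b * c = 0 := by
    by_cases h0 : τ i0 = 0
    · have h1 : τ i1 ≠ 0 := by
        intro h1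
        rcases T i0 i1 h01 with h2 | h2
        · rw [h0] at h2; exact absurd h2 (by decide)
        · rw [h1] at h2; exact absurd h2 (by decide)
      exact hbc1 i1 h1
    · exact hbc1 i0 h0
  have hb : b = 0 := by
    by_contra hb
    have hc : c = 0 := by
      rcases mul_eq_zero.1 hbc with h1 | h1
      · exact absurd h1 hb
      · exact h1
    have hω0 : ∀ k, ω k = 0 := by
      intro k
      by_cases hk : τ k = 2
      · have := E3 k hk
        rw [hc, zero_add] at this
        rcases mul_eq_zero.1 this with h1 | h1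
        · exact absurd h1 hκ
        · exact h1
      · exact hω k hk
    have hτ : ∀ j, τ j = 1 := by
      intro j
      by_contra hj
      exact ha (E5 hω0 hc j hj)
    have hν0 : ∀ i, ν i ≠ 0 := by
      intro i hi
      have := E2 i (hτ i)
      rw [hi, mul_zero, add_zero] at this
      exact hb this
    have h60 := E6 i0 (hτ i0)
    have h61 := E6 i1 (hτ i1)
    have s0 : ∑ j, ν j * (if j < i0 then a else 0) = 0 := by
      refine Finset.sum_eq_zero fun j _ => ?_
      rw [if_neg, mul_zero]
      rw [Fin.lt_def]
      simp [hi0]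
    have s1 : ∑ j, ν j * (if j < i1 then a else 0) = ν i0 * a := by
      rw [Finset.sum_eq_single i0]
      · rw [if_pos h01]
      · intro j _ hj
        rw [if_neg, mul_zero]
        intro hlt
        apply hj
        rw [Fin.lt_def] at hlt
        apply Fin.ext
        simp only [hi1, hi0] at hlt ⊢
        omega
      · intro hne
        exact absurd (Finset.mem_univ _) hne
    rw [s0, zero_add] at h60
    have ha' : a' = 0 := by
      rcases mul_eq_zero.1 h60 with h1 | h1
      · exact absurd h1 (hν0 i0)
      · exact h1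
    rw [s1, ha', mul_zero, add_zero] at h61
    rcases mul_eq_zero.1 h61 with h1 | h1
    · exact hν0 i0 h1
    · exact ha h1
  have hν0 : ∀ k, ν k = 0 := by
    intro k
    by_cases hk : τ k = 1
    · have := E2 k hk
      rw [hb, zero_add] at this
      rcases mul_eq_zero.1 this with h1 | h1
      · exact absurd h1 hκ
      · exact h1
    · exact hν k hk
  simp only [hν0, zero_mul, ite_self, Finset.sum_const_zero, mul_zero, sub_zero, add_zero] at E7
  exact E7

end Pool.Agent.H229.FF_NF
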