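import Pool.Agent.H402.FF.Stm

/-!
# Full minors: the case WB
-/

set_option autoImplicit false

open Finset

namespace Pool.Agent.H229.FF_WB

open Pool.Agent.H402.FF

universe u

section

variable {F : Type u} [Field F]

/-- the tensor at the positions `3 a, 3 b + 1, 3 c + 2` -/
def M (p q : F) (a b c : ℕ) : F :=
  q + (if b ≤ c then -q else 0) + (if a ≤ b then -q else 0) + (if a ≤ b ∧ b ≤ c then p + q else 0)

theorem T_eq {p q : F} {T : ℤ → ℤ → ℤ → F} (h : AgI T q (-q) 0 (-q) (p + q) 0) (a b c : ℕ) :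
    T (3 * (a : ℤ)) (3 * (b : ℤ) + 1) (3 * (c : ℤ) + 2) = M p q a b c := by
  rw [h _ _ _ (by omega) (by omega) (by omega)]
  unfold TI M ind
  have e1 : (3 * (b : ℤ) + 1 < 3 * (c : ℤ) + 2) ↔ b ≤ c := by omega
  have e2 : (3 * (a : ℤ) < 3 * (b : ℤ) + 1) ↔ a ≤ b := by omega
  simp only [e1, e2]
  split_ifs <;> ring

/-- rows in the first direction -/
def P (n : ℕ) (r : F) (i x : Fin (n + 1)) : F :=
  if (i : ℕ) = n then (1 - r) * (if (x : ℕ) = n then 1 else 0) + r * (if (x : ℕ) = 1 then 1 else 0)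
  else (if (x : ℕ) = i then 1 else 0) - (if (x : ℕ) = (i : ℕ) + 1 then 1 else 0)

/-- rows in the third direction -/
def R (n : ℕ) (k z : Fin (n + 1)) : F :=
  (if (z : ℕ) = k then 1 else 0) - (if (z : ℕ) + 1 = k then 1 else 0)

theorem sum_single (n m : ℕ) (hm : m ≤ n) (φ : ℕ → F) :
    ∑ x : Fin (n + 1), (if (x : ℕ) = m then (1:F) else 0) * φ x = φ m := by
  rw [Finset.sum_eq_single (⟨m, by omega⟩ : Fin (n + 1))]
  · simp
  · intro x _ hx
    rw [if_neg, zero_mul]
    intro h
    exact hx (Fin.ext h)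
  · intro h
    exact absurd (Finset.mem_univ _) h

theorem sum_P (n : ℕ) (hn : 1 ≤ n) (r : F) (i : Fin (n + 1)) (φ : ℕ → F) :
    ∑ x, P n r i x * φ x = if (i : ℕ) = n then (1 - r) * φ n + r * φ 1 else φ i - φ (i + 1) := by
  unfold P
  split_ifs with h
  · have e : ∀ x : Fin (n + 1), ((1 - r) * (if (x : ℕ) = n then 1 else 0) +
        r * (if (x : ℕ) = 1 then 1 else 0)) * φ x =
        (1 - r) * ((if (x : ℕ) = n then 1 else 0) * φ x) +
          r * ((if (x : ℕ) = 1 then 1 else 0) * φ x) := fun x => by ring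
    simp only [e, Finset.sum_add_distrib, ← Finset.mul_sum]
    rw [sum_single n n le_rfl, sum_single n 1 hn]
  · have hi := i.2
    simp only [sub_mul, Finset.sum_sub_distrib]
    rw [sum_single n i (by omega), sum_single n (i + 1) (by omega)]

theorem sum_R0 (n : ℕ) (k : Fin (n + 1)) (hk : (k : ℕ) = 0) (φ : ℕ → F) :
    ∑ z, R n k z * φ z = φ 0 := by
  unfold R
  simp only [sub_mul, Finset.sum_sub_distrib, hk]
  rw [sum_single n 0 (by omega)]
  have : ∑ x : Fin (n + 1), (if (x : ℕ) + 1 = 0 then (1:F) else 0) * φ x = 0 := by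
    refine Finset.sum_eq_zero fun x _ => ?_
    rw [if_neg (by omega), zero_mul]
  rw [this, sub_zero]

theorem sum_R1 (n : ℕ) (k : Fin n) (φ : ℕ → F) :
    ∑ z, R n k.succ z * φ z = φ (k + 1) - φ k := by
  have hk := k.2
  unfold R
  simp only [sub_mul, Finset.sum_sub_distrib, Fin.val_succ]
  rw [sum_single n (k + 1) (by omega)]
  congr 1
  have e : ∀ x : Fin (n + 1), ((x : ℕ) + 1 = (k : ℕ) + 1) ↔ ((x : ℕ) = k) := fun x => by omega
  simp only [e]
  exact sum_single n k (by omega) φ

theorem M_diff (p q : F) (x j k : ℕ) :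
    M p q x j (k + 1) - M p q x j k =
      if j = k + 1 then -q + (if x ≤ j then p + q else 0) else 0 := by
  unfold M
  by_cases h1 : j = k + 1
  · subst h1
    rw [if_pos le_rfl, if_neg (show ¬ (k + 1 ≤ k) by omega), if_pos rfl,
      if_neg (show ¬ (x ≤ k + 1 ∧ k + 1 ≤ k) by omega)]
    by_cases h2 : x ≤ k + 1
    · simp only [h2, le_refl, and_self, if_true]
      ring
    · simp only [h2, false_and, if_false]
      ring
  · rw [if_neg h1]
    have e : j ≤ k + 1 ↔ j ≤ k := by omega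
    simp only [e]
    ring

end

theorem holds (h1 : S_zb.{u}) (h2 : S_df.{u}) : S_wb.{u} := by
  intro F _ p q T hT hp hpq n hn
  refine ⟨fun i => 3 * ((i : ℕ) : ℤ), fun j => 3 * ((j : ℕ) : ℤ) + 1,
    fun k => 3 * ((k : ℕ) : ℤ) + 2, fun hSL => ?_⟩
  have hM : (fun i j k : Fin (n + 1) => T (3 * ((i : ℕ) : ℤ)) (3 * ((j : ℕ) : ℤ) + 1)
      (3 * ((k : ℕ) : ℤ) + 2)) = fun i j k : Fin (n + 1) => M p q i j k := by
    funext i j k
    exact T_eq hT i j k
  rw [hM] at hSL
  set r : F := q / (p + q) with hr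
  have hrq : r * (p + q) = q := by rw [hr, div_mul_cancel₀ _ hpq]
  have hN := h2 F (n + 1) (fun i j k : Fin (n + 1) => M p q i j k) (P n r)
    (fun j y => if y = j then 1 else 0) (R n) (n + 1) hSL
  set N : Fin (n + 1) → Fin (n + 1) → Fin (n + 1) → F := fun i j l => ∑ x, ∑ y, ∑ z,
    P n r i x * (if y = j then 1 else 0) * R n l z * M p q x y z with hNdef
  have hN1 : ∀ i j l, N i j l = ∑ x, P n r i x * (∑ z, R n l z * M p q x j z) := by
    intro i j l
    rw [hNdef]
    refine Finset.sum_congr rfl fun x _ => ?_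
    rw [Finset.sum_eq_single j]
    · rw [if_pos rfl, Finset.mul_sum]
      exact Finset.sum_congr rfl fun z _ => by ring
    · intro y _ hy
      rw [if_neg hy]
      simp
    · intro hne
      exact absurd (Finset.mem_univ _) hne
  have hNs : ∀ (i j : Fin (n + 1)) (k : Fin n), N i j k.succ =
      if (j : ℕ) = k + 1 then
        (if (i : ℕ) = n then (if n ≤ (j : ℕ) then p else 0) else (if (i : ℕ) = j then p + q else 0))
      else 0 := by
    intro i j k
    have e1 : ∀ x : Fin (n + 1), ∑ z, R n k.succ z * M p q x j z =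
        (fun m : ℕ => if (j : ℕ) = (k : ℕ) + 1 then -q + (if m ≤ (j : ℕ) then p + q else 0)
          else 0) (x : ℕ) := by
      intro x
      rw [sum_R1 n k (fun z => M p q x j z)]
      exact M_diff p q x j k
    rw [hN1]
    simp only [e1]
    rw [sum_P n hn r i (fun m : ℕ => if (j : ℕ) = (k : ℕ) + 1 then
      -q + (if m ≤ (j : ℕ) then p + q else 0) else 0)]
    by_cases hj : (j : ℕ) = k + 1
    · simp only [hj, if_true]
      by_cases hi : (i : ℕ) = n
      · rw [if_pos hi, if_pos hi, if_pos (show 1 ≤ (k : ℕ) + 1 by omega)]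
        split_ifs
        · linear_combination (-1 : F) * hrq + hrq
        · linear_combination hrq
      · rw [if_neg hi, if_neg hi]
        by_cases h3 : (i : ℕ) ≤ k + 1
        · by_cases h4 : (i : ℕ) = k + 1
          · rw [if_pos h3, if_neg (show ¬ ((i : ℕ) + 1 ≤ k + 1) by omega), if_pos h4]
            ring
          · rw [if_pos h3, if_pos (show ((i : ℕ) + 1 ≤ k + 1) by omega), if_neg h4]
            ring
        · rw [if_neg h3, if_neg (show ¬ ((i : ℕ) + 1 ≤ k + 1) by omega),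
            if_neg (show ¬ ((i : ℕ) = k + 1) by omega)]
          ring
    · simp only [hj, if_false]
      split_ifs <;> ring
  have h000 : N 0 0 0 = p := by
    have e1 : ∀ x : Fin (n + 1), ∑ z, R n 0 z * M p q x ((0 : Fin (n + 1)) : ℕ) z =
        (fun m : ℕ => M p q m 0 0) (x : ℕ) := by
      intro x
      rw [sum_R0 n 0 rfl (fun z => M p q x ((0 : Fin (n + 1)) : ℕ) z)]
      rfl
    rw [hN1]
    simp only [e1]
    rw [sum_P n hn r 0 (fun m : ℕ => M p q m 0 0)]
    have h0 : ((0 : Fin (n + 1)) : ℕ) = 0 := rfl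
    rw [h0, if_neg (by omega)]
    unfold M
    simp
  have hlast : ∀ i : Fin n, ((i.succ : Fin (n + 1)) : ℕ) = (i : ℕ) + 1 := fun i => rfl
  set κ : Fin n → F := fun i => if (i : ℕ) + 1 = n then p else p + q with hκ
  have hκ0 : ∀ i, κ i ≠ 0 := by
    intro i
    simp only [hκ]
    split_ifs
    · exact hp
    · exact hpq
  have hint : ∀ i j k : Fin n, N i.succ j.succ k.succ = if i = j ∧ j = k then κ i else 0 := by
    intro i j k
    have hi := i.2
    have hj := j.2
    rw [hNs]
    simp only [hlast, hκ]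
    have e1 : (i = j ∧ j = k) ↔ ((i : ℕ) = j ∧ (j : ℕ) = k) := by
      rw [Fin.ext_iff, Fin.ext_iff]
    rw [if_congr e1 rfl rfl]
    split_ifs <;> first | rfl | (exfalso; omega)
  obtain ⟨τ, μ, ν, ω, hμ, hν, hω, C1, C2, _, _, _, _, C7⟩ := h1 F n N κ hκ0 hint hN
  have h0jk : ∀ j k : Fin n, N 0 j.succ k.succ = 0 := by
    intro j k
    rw [hNs]
    have h0 : ((0 : Fin (n + 1)) : ℕ) = 0 := rfl
    simp only [hlast, h0]
    rw [if_neg (show ¬ (0 = n) by omega), if_neg (show ¬ (0 = (j : ℕ) + 1) by omega), ite_self]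
  have h0k : ∀ (i : Fin (n + 1)) (k : Fin n), N i 0 k.succ = 0 := by
    intro i k
    rw [hNs]
    have h0 : ((0 : Fin (n + 1)) : ℕ) = 0 := rfl
    simp only [h0]
    rw [if_neg (show ¬ (0 = (k : ℕ) + 1) by omega)]
  have hμ0 : ∀ i, μ i = 0 := by
    intro i
    by_cases hi : τ i = 0
    · have := C1 i i (by rw [hi]; decide) (by rw [hi]; decide)
      rw [h0jk, if_pos rfl, zero_add] at this
      exact (mul_eq_zero.1 this).resolve_left (hκ0 i)
    · exact hμ i hi
  have hν0 : ∀ i, ν i = 0 := by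
    intro i
    by_cases hi : τ i = 1
    · have := C2 i i (by rw [hi]; decide) (by rw [hi]; decide)
      rw [h0k, if_pos rfl, zero_add] at this
      exact (mul_eq_zero.1 this).resolve_left (hκ0 i)
    · exact hν i hi
  simp only [hμ0, hν0, h0k, h000, zero_mul, mul_zero, Finset.sum_const_zero, add_zero] at C7
  exact hp C7

end Pool.Agent.H229.FF_WB
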