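import Pool.Agent.H979.FR.Stm

set_option autoImplicit false

open MeasureTheory ProbabilityTheory Finset
open scoped ENNReal NNReal

/-!
# The frog model with death: statement CLOSE (project FR of helper979)
-/

namespace Pool.Agent.H229

open Pool.Agent.H979.FR

theorem mem_cell {V : Type} (π : V → V) (hfin : ∀ x, {y | π y = π x}.Finite) (u : Set.range π)
    (x : V) : x ∈ cell π u ↔ π x = u := by
  obtain ⟨u, x0, rfl⟩ := u
  have h : {y | π y = π x0}.Finite := hfin x0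
  unfold cell
  rw [dif_pos h]
  simp

theorem cw_sum {V : Type} (G : SimpleGraph V) [G.LocallyFinite] (π : V → V)
    (hfin : ∀ x, {y | π y = π x}.Finite) (m τ : ℕ) (lam : ℝ) (u : Set.range π)
    (S : Finset (Set.range π)) (A : Finset V) (hA : ∀ y, y ∈ A ↔ ∃ v ∈ S, π y = v) :
    ∑ v ∈ S, cw G π m τ lam u v =
      ∑ x ∈ cell π u, lam * (1 / 16 * ∑ y ∈ A, kap G m τ x y) := by
  classical
  have hA' : A = S.biUnion (fun v => cell π v) := by
    ext y
    rw [hA, Finset.mem_biUnion]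
    constructor
    · rintro ⟨v, hv, hy⟩
      exact ⟨v, hv, (mem_cell π hfin v y).2 hy⟩
    · rintro ⟨v, hv, hy⟩
      exact ⟨v, hv, (mem_cell π hfin v y).1 hy⟩
  have hdis : ∀ v ∈ S, ∀ w ∈ S, v ≠ w → Disjoint (cell π v) (cell π w) := by
    intro v _ w _ hvw
    rw [Finset.disjoint_left]
    intro y hy1 hy2
    apply hvw
    apply Subtype.ext
    rw [← (mem_cell π hfin v y).1 hy1, ← (mem_cell π hfin w y).1 hy2]
  have hsum : ∀ x : V, ∑ y ∈ A, kap G m τ x y = ∑ v ∈ S, ∑ y ∈ cell π v, kap G m τ x y := by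
    intro x
    rw [hA', Finset.sum_biUnion]
    intro v hv w hw hvw
    exact hdis v hv w hw hvw
  unfold cw
  rw [← Finset.mul_sum, Finset.sum_comm]
  rw [← Finset.mul_sum, ← Finset.mul_sum, ← mul_assoc]
  congr 1
  · ring
  · exact Finset.sum_congr rfl fun x _ => (hsum x).symm

/-- **CLOSE** of project FR. -/
theorem fr_close (hHIT : S_HIT) (hPOI : S_POI) (hMEAS : S_MEAS) : S_CLOSE := by
  intro V _ _ _ G _ d hd hdeg τ m φ hφ0 hφ hτ hm1 hm2 π hfin hvis t ht lam u S
  classical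
  -- the sets `H x`
  set H : V → Set (H979.FR.Part V) := fun x =>
    {ξ | ∃ v ∈ (Subtype.val '' (S : Set (Set.range π)) : Set V),
      ∀ y, π y = v → y ∈ visits t x ξ} with hH
  have hmeas : ∀ x, MeasurableSet (H x) := by
    intro x
    have h : H x = ⋃ v ∈ S, ⋂ y, ⋂ (_ : π y = (v : V)), {ξ : H979.FR.Part V | y ∈ visits t x ξ} := by
      ext ξ
      simp only [hH, Set.mem_ofPred_eq, Set.mem_iUnion, Set.mem_iInter, Set.mem_image,
        Finset.mem_coe]
      constructor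
      · rintro ⟨v, ⟨w, hw, rfl⟩, h⟩
        exact ⟨w, hw, h⟩
      · rintro ⟨w, hw, h⟩
        exact ⟨w, ⟨w, hw, rfl⟩, h⟩
    rw [h]
    refine Finset.measurableSet_biUnion S fun v _ => ?_
    refine MeasurableSet.iInter fun y => ?_
    refine MeasurableSet.iInter fun _ => ?_
    exact hMEAS V t x y
  -- the event
  have hev : {ω : Conf V | ∀ v ∈ S, Nf π t u ω v = false} =
      {ω : Conf V | ∀ x ∈ cell π u, ∀ i < (ω x).1, (ω x).2 i ∉ H x} := by
    ext ω
    simp only [Set.mem_ofPred_eq, Nf, decide_eq_false_iff_not, hH, Set.mem_image, Finset.mem_coe]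
    constructor
    · rintro h x hx i hi ⟨v, ⟨w, hw, rfl⟩, hv⟩
      exact h w hw ⟨x, (mem_cell π hfin u x).1 hx, i, hi, hv⟩
    · rintro h v hv ⟨x, hx, i, hi, hy⟩
      exact h x ((mem_cell π hfin u x).2 hx) i hi ⟨v, ⟨v, hv, rfl⟩, hy⟩
  rw [hev, hPOI V G lam (cell π u) H hmeas]
  apply ENNReal.ofReal_le_ofReal
  apply Real.exp_le_exp.2
  apply neg_le_neg
  have hA : ∀ y, y ∈ S.biUnion (fun v => cell π v) ↔ ∃ v ∈ S, π y = v := by
    intro y
    rw [Finset.mem_biUnion]
    constructor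
    · rintro ⟨v, hv, hy⟩
      exact ⟨v, hv, (mem_cell π hfin v y).1 hy⟩
    · rintro ⟨v, hv, hy⟩
      exact ⟨v, hv, (mem_cell π hfin v y).2 hy⟩
  rw [cw_sum G π hfin m τ lam u S _ hA]
  refine Finset.sum_le_sum fun x _ => ?_
  refine mul_le_mul_of_nonneg_left ?_ lam.2
  have h := hHIT V G d hd hdeg τ m φ hφ0 hφ hτ hm1 hm2 π hvis t ht x
    (S.biUnion (fun v => cell π v)) (Subtype.val '' (S : Set (Set.range π)) : Set V) (by
      intro y hy
      obtain ⟨v, hv, hyv⟩ := (hA y).1 hy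
      exact ⟨v, hv, hyv.symm⟩)
  exact (ENNReal.ofReal_le_iff_le_toReal (measure_ne_top _ _)).1 h

end Pool.Agent.H229
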