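import Pool.Agent.H770.SN.Stm

/-! SN-4 (project SN of helper770): Steiner symmetrization increases the measure of `K ∩ T`. -/

set_option autoImplicit false

open MeasureTheory Set Function
open scoped ENNReal

namespace Pool.Agent.H229.SN4

open Pool.Agent.H770.SN

/-- insertion of a coordinate -/
def ins {m : ℕ} (i : Fin (m + 1)) (t : ℝ) (y : Fin m → ℝ) : Fin (m + 1) → ℝ :=
  Fin.insertNth (α := fun _ => ℝ) i t y

lemma ins_same {m : ℕ} (i : Fin (m + 1)) (t : ℝ) (y : Fin m → ℝ) : ins i t y i = t := by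
  unfold ins
  rw [Fin.insertNth_apply_same]

lemma ins_succ {m : ℕ} (i : Fin (m + 1)) (t : ℝ) (y : Fin m → ℝ) (k : Fin m) :
    ins i t y (i.succAbove k) = y k := by
  unfold ins
  rw [Fin.insertNth_apply_succAbove]

lemma upd_ins {m : ℕ} (i : Fin (m + 1)) (t s : ℝ) (y : Fin m → ℝ) :
    update (ins i t y) i s = ins i s y := by
  funext j
  rcases Fin.eq_self_or_eq_succAbove i j with rfl | ⟨k, rfl⟩
  · rw [update_self, ins_same]
  · rw [update_of_ne (Fin.succAbove_ne i k), ins_succ, ins_succ]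

lemma vol_eq {m : ℕ} (i : Fin (m + 1)) (S : Set (Fin (m + 1) → ℝ)) (hS : MeasurableSet S) :
    volume S = ∫⁻ y : Fin m → ℝ, volume {t : ℝ | ins i t y ∈ S} ∧
    ∀ y : Fin m → ℝ, MeasurableSet {t : ℝ | ins i t y ∈ S} := by
  let e := MeasurableEquiv.piFinSuccAbove (fun _ : Fin (m + 1) => ℝ) i
  have he : MeasurePreserving e.symm :=
    (volume_preserving_piFinSuccAbove (fun _ : Fin (m + 1) => ℝ) i).symm e
  have hm : MeasurableSet (e.symm ⁻¹' S) := e.symm.measurable hS
  constructor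
  · have h1 : volume S = volume (e.symm ⁻¹' S) := (he.measure_preimage hS.nullMeasurableSet).symm
    rw [h1]
    have h2 := Measure.prod_apply_symm (μ := (volume : Measure ℝ)) (ν := (volume : Measure (Fin m → ℝ))) hm
    exact h2
  · intro y
    exact (measurable_id.prodMk measurable_const) hm

theorem t_Kside : S_Kside := by
  intro hBM n i K T hK hSt hT hconv hsym
  obtain ⟨m, rfl⟩ : ∃ m, n = m + 1 := ⟨n - 1, by have := i.2; omega⟩
  have v1 := vol_eq i (K ∩ T) (hK.inter hT)
  have v2 := vol_eq i (St i K ∩ T) (hSt.inter hT)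
  rw [v1.1, v2.1]
  apply lintegral_mono
  intro y
  refine hBM _ _ (v1.2 y) (v2.2 y) ?_
  intro a ha b hb
  simp only [mem_setOf_eq] at ha hb ⊢
  refine ⟨⟨a, b, ?_, ?_, ?_⟩, ?_⟩
  · rw [upd_ins]; exact ha.1
  · rw [upd_ins]; exact hb.1
  · rw [ins_same]
  · have h1 : ins i (-b) y ∈ T := by
      have h := hsym _ hb.2
      unfold Rf at h
      rwa [upd_ins, ins_same] at h
    have h2 := hconv ha.2 h1 (by norm_num : (0 : ℝ) ≤ 1 / 2) (by norm_num : (0 : ℝ) ≤ 1 / 2) (by norm_num)
    have h3 : (1 / 2 : ℝ) • ins i a y + (1 / 2 : ℝ) • ins i (-b) y = ins i ((a - b) / 2) y := by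
      funext j
      rw [Pi.add_apply, Pi.smul_apply, Pi.smul_apply, smul_eq_mul, smul_eq_mul]
      rcases Fin.eq_self_or_eq_succAbove i j with rfl | ⟨k, rfl⟩
      · rw [ins_same, ins_same, ins_same]
        ring
      · rw [ins_succ, ins_succ, ins_succ]
        ring
    rwa [h3] at h2

end Pool.Agent.H229.SN4
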