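import Pool.Agent.H770.GS.TK

/-!
# TK6: tail comparison in `k`, for `ε ∈ [1/2, 9/8]`
-/

set_option autoImplicit false

open MeasureTheory Set intervalIntegral Filter Topology

namespace Pool.Agent.H229.TK6

open Pool.Agent.Helper82.GC Pool.Agent.H770.GS

theorem kk_nonneg (ε : ℝ) (m : ℕ) : 0 ≤ KK3 ε m := by
  unfold KK3
  refine setIntegral_nonneg measurableSet_Ioi fun x _ => ?_
  positivity

theorem kk_le (h2 : S_TF2) (h3 : S_TF3) (ε c : ℝ) (k : ℕ) (hε0 : 0 < ε)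
    (hc : ∀ x, 12 / 5 ≤ x → |cf ε x| ≤ c)
    (hk : 4 ≤ k) : KK3 ε (k - 1) ≤ c ^ (k - 4) * KK3 ε 3 := by
  have hint := (h3 h2 ε 1 3 hε0 one_pos le_rfl).2
  unfold KK3
  rw [← MeasureTheory.integral_const_mul]
  refine setIntegral_mono_on (hint (k - 1)) ((hint 3).const_mul _) measurableSet_Ioi ?_
  intro x hx
  have hx' : 12 / 5 ≤ x := le_of_lt hx
  have h4 := hc x hx'
  have h5 : |cf ε x| ^ (k - 1) ≤ c ^ (k - 4) * |cf ε x| ^ 3 := by
    have e : k - 1 = (k - 4) + 3 := by omega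
    rw [e, pow_add]
    exact mul_le_mul_of_nonneg_right (pow_le_pow_left₀ (abs_nonneg _) h4 _) (by positivity)
  rw [← mul_div_assoc]
  exact div_le_div_of_nonneg_right h5 (by positivity)

theorem sinc_pos (b : ℝ) (hb : 0 < b) (hb2 : b < 1) : 0 < Real.sinc (b * Real.pi) := by
  have hpi := Real.pi_pos
  have hx : 0 < b * Real.pi := by positivity
  rw [Real.sinc_of_ne_zero hx.ne']
  exact div_pos (Real.sin_pos_of_pos_of_lt_pi hx (by nlinarith)) hx

/-- The numerical inequality of the first case. -/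
theorem num1 (b : ℝ) (n : ℕ) (hb : 0 < b) (h : 1 ≤ ((n : ℝ) + 4) * b ^ 2) :
    (1 + 1 / b) * (0.785 : ℝ) ^ n ≤ 3 := by
  have hn : (0 : ℝ) ≤ n := Nat.cast_nonneg n
  have h1 : (1 / b) ^ 2 ≤ (n : ℝ) + 4 := by
    rw [div_pow, one_pow, div_le_iff₀ (by positivity)]
    exact h
  have h2 : 1 / b ≤ 2 + n / 4 := by
    have h3 : (1 / b) ^ 2 ≤ (2 + (n : ℝ) / 4) ^ 2 := by nlinarith
    exact le_of_sq_le_sq h3 (by positivity)
  have h3 : 1 + (n : ℝ) * (1 / 12) ≤ (1 + 1 / 12) ^ n :=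
    one_add_mul_le_pow (by norm_num) n
  have h4 : 1 + 1 / b ≤ 3 * (13 / 12 : ℝ) ^ n := by
    have h5 : (1 + 1 / 12 : ℝ) = 13 / 12 := by norm_num
    rw [h5] at h3
    linarith
  have h5 : (13 / 12 : ℝ) ^ n * (0.785) ^ n ≤ 1 := by
    rw [← mul_pow]
    exact pow_le_one₀ (by norm_num) (by norm_num)
  calc (1 + 1 / b) * (0.785 : ℝ) ^ n ≤ 3 * (13 / 12 : ℝ) ^ n * (0.785) ^ n :=
        mul_le_mul_of_nonneg_right h4 (by positivity)
    _ = 3 * ((13 / 12 : ℝ) ^ n * (0.785) ^ n) := by ring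
    _ ≤ 3 * 1 := mul_le_mul_of_nonneg_left h5 (by norm_num)
    _ = 3 := by norm_num

theorem tk6 : S_TK6 := by
  intro h2 h3 h6 h5 ε b k hε1 hε hb hb3 hk hkb
  have hε0 : 0 < ε := by linarith
  have hpi := Real.pi_pos
  obtain ⟨hs, -, hanti, -⟩ := h6 h2 ε hε0
  have hK := kk_nonneg ε 3
  have hb1 : b < 1 := by nlinarith
  have hF0 : 0 < cf ε (b * Real.pi) :=
    (sinc_pos b hb hb1).trans_le (hs _ (by positivity) (by nlinarith))
  have ek : k = (k - 4) + 4 := by omega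
  set F := cf ε (b * Real.pi) with hF
  constructor
  · intro hb2
    set S := cf ε (Real.pi / 2) with hS
    have hS0 : 0 < S := by
      have h7 := sinc_pos (1 / 2) (by norm_num) (by norm_num)
      have h8 := hs (1 / 2 * Real.pi) (by positivity) (by linarith)
      have e : 1 / 2 * Real.pi = Real.pi / 2 := by ring
      rw [e] at h7 h8
      linarith
    have hSF : S ≤ F := by
      apply hanti
      · exact ⟨by positivity, by nlinarith⟩
      · exact ⟨by positivity, by linarith⟩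
      · nlinarith
    have hkk := kk_le h2 h3 ε (0.785 * S) k hε0 (fun x hx => (h5 ε x hε1 hε hx).1) hk
    have h8 : S ^ k ≤ F ^ k := pow_le_pow_left₀ hS0.le hSF k
    have h9 : (1 + 1 / b) * (0.785 : ℝ) ^ (k - 4) ≤ 3 := by
      refine num1 b (k - 4) hb ?_
      have e : ((k - 4 : ℕ) : ℝ) + 4 = k := by
        rw [Nat.cast_sub hk]
        push_cast
        ring
      rw [e]
      exact hkb
    have e1 : S ^ k * (3 * KK3 ε 3 / S ^ 4) = 3 * (S ^ (k - 4) * KK3 ε 3) := by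
      rw [show S ^ k = S ^ (k - 4) * S ^ 4 by rw [← pow_add, ← ek]]
      field_simp
    calc (1 + 1 / b) * KK3 ε (k - 1) ≤ (1 + 1 / b) * ((0.785 * S) ^ (k - 4) * KK3 ε 3) :=
          mul_le_mul_of_nonneg_left hkk (by positivity)
      _ = (1 + 1 / b) * (0.785 : ℝ) ^ (k - 4) * (S ^ (k - 4) * KK3 ε 3) := by
          rw [mul_pow]; ring
      _ ≤ 3 * (S ^ (k - 4) * KK3 ε 3) := mul_le_mul_of_nonneg_right h9 (by positivity)
      _ = S ^ k * (3 * KK3 ε 3 / S ^ 4) := e1.symm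
      _ ≤ F ^ k * (3 * KK3 ε 3 / S ^ 4) :=
          mul_le_mul_of_nonneg_right h8 (by positivity)
  · intro hb2
    have h3p : 0 < Real.sqrt 3 := by positivity
    have hsq : Real.sqrt 3 ^ 2 = 3 := Real.sq_sqrt (by norm_num)
    have hbs : b * Real.sqrt 3 ≤ 1 := by
      have : (b * Real.sqrt 3) ^ 2 ≤ 1 ^ 2 := by
        rw [mul_pow, hsq]
        linarith
      exact le_of_sq_le_sq this (by norm_num)
    have hs1 : 1 ≤ Real.sqrt 3 := by
      rw [Real.one_le_sqrt]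
      norm_num
    have hle : b * Real.pi ≤ Real.pi / Real.sqrt 3 := by
      rw [le_div_iff₀ h3p]
      nlinarith
    have hle2 : Real.pi / Real.sqrt 3 ≤ Real.pi := div_le_self hpi.le hs1
    have hTF : cf ε (Real.pi / Real.sqrt 3) ≤ F := by
      apply hanti
      · exact ⟨by positivity, by nlinarith⟩
      · exact ⟨by positivity, hle2⟩
      · exact hle
    have hkk := kk_le h2 h3 ε F k hε0 (fun x hx => ((h5 ε x hε1 hε hx).2).trans hTF) hk
    have e1 : F ^ k * ((1 + 1 / b) * KK3 ε 3 / F ^ 4) =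
        (1 + 1 / b) * (F ^ (k - 4) * KK3 ε 3) := by
      rw [show F ^ k = F ^ (k - 4) * F ^ 4 by rw [← pow_add, ← ek]]
      field_simp
    rw [e1]
    exact mul_le_mul_of_nonneg_left hkk (by positivity)

end Pool.Agent.H229.TK6
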